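import Pool.Agent.H.MP_06f7ba_an.H93.Final

/-! Disproof of Q1 of MP_06f7ba_an: invariant indicator elements need not exist for Choquet
decompositions of invariant means on an uncountable discrete abelian group. -/

open MeasureTheory Filter Topology

namespace Pool.Agent.Results.MP_06f7ba_an.Disproof

open MP06f7ba

/-- For every uncountable set `κ` let `Γ` be the elementary abelian 2-group
`⊕_κ Z/2 × ⊕_{ℕ × Fin(κ)} Z/2`. There are an invariant mean `m` on `ℓ^∞(Γ)`, a Choquet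
decomposition `σ` of `m` and a `σ`-measurable set `E` of extreme invariant means such that no
indicator element `w = lim 1_{C_n}` of `L²(m)` (`τ`-invariant or not) satisfies
`m(f w) = lim m(f 1_{C_n}) = ∫_E ν(f) dσ(ν)` for all `f ∈ ℓ^∞(Γ)`. -/
theorem result (κ : Type) [Uncountable κ] :
    ∃ (Γ : Type) (_ : AddCommGroup Γ),
      Nonempty (Γ ≃+ (κ →₀ ZMod 2) × ((ℕ × Finset κ) →₀ ZMod 2)) ∧
      ∃ (m : ↥(InvMeans Γ)) (σ : @Measure ↥(InvMeans Γ) (choquetAlg Γ))
        (E : Set ↥(InvMeans Γ)),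
        IsChoquet m σ ∧ E ⊆ ExtMeans Γ ∧ MeasurableSet[choquetAlg Γ] E ∧
        ∀ C : ℕ → Set Γ, IsL2Cauchy m.1 (fun n => chi (C n)) →
          ¬ ∀ f : Linf Γ, Tendsto (fun n => m.1 (mulL f (chi (C n)))) atTop
            (𝓝 (∫ ν in E, ν.1 f ∂σ)) :=
  ⟨G κ, inferInstance, ⟨AddEquiv.refl _⟩, main κ⟩

end Pool.Agent.Results.MP_06f7ba_an.Disproof
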